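import Pool.Agent.Lib.MP_4c42bd_gt.Defs

namespace MP4c42bd
namespace Core

open MeasureTheory Set Filter Topology

/-- a continuous periodic positive function is bounded below by a positive constant -/
theorem per_lower {f : ℝ → ℝ} (hf : Continuous f) {c : ℝ} (hc : 0 < c)
    (hper : Function.Periodic f c) (hpos : ∀ x, 0 < f x) : ∃ δ > 0, ∀ x, δ ≤ f x := by
  obtain ⟨z, hz, hmin⟩ := (isCompact_Icc (a := (0:ℝ)) (b := c)).exists_isMinOn
    ⟨0, by simp [hc.le]⟩ hf.continuousOn
  refine ⟨f z, hpos z, fun x => ?_⟩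
  obtain ⟨y, hy, hxy⟩ := hper.exists_mem_Ico₀ hc x
  rw [hxy]
  exact hmin ⟨hy.1, hy.2.le⟩

theorem per_upper {f : ℝ → ℝ} (hf : Continuous f) {c : ℝ} (hc : 0 < c)
    (hper : Function.Periodic f c) : ∃ C, ∀ x, |f x| ≤ C := by
  obtain ⟨z, hz, hmax⟩ := (isCompact_Icc (a := (0:ℝ)) (b := c)).exists_isMaxOn
    ⟨0, by simp [hc.le]⟩ hf.abs.continuousOn
  refine ⟨|f z|, fun x => ?_⟩
  obtain ⟨y, hy, hxy⟩ := hper.exists_mem_Ico₀ hc x
  rw [hxy]
  exact hmax ⟨hy.1, hy.2.le⟩

/-- strict growth -/
theorem growth {f f' : ℝ → ℝ} (hf : ∀ x, HasDerivAt f (f' x) x) {δ : ℝ}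
    (hδ : ∀ x, δ ≤ f' x) {x y : ℝ} (hxy : x ≤ y) : δ * (y - x) ≤ f y - f x := by
  have hmono : Monotone (fun x => f x - δ * x) := by
    apply monotone_of_deriv_nonneg
    · intro z
      exact ((hf z).sub ((hasDerivAt_id z).const_mul δ)).differentiableAt
    · intro z
      have h := ((hf z).sub ((hasDerivAt_id z).const_mul δ)).deriv
      have h2 : deriv (fun x => f x - δ * x) z = f' z - δ * 1 := h
      rw [h2]
      linarith [hδ z]
  have := hmono hxy
  simp only at this
  linarith

theorem growth_abs {f f' : ℝ → ℝ} (hf : ∀ x, HasDerivAt f (f' x) x) {δ : ℝ}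
    (hδ : ∀ x, δ ≤ f' x) (x y : ℝ) : δ * |y - x| ≤ |f y - f x| := by
  rcases le_total x y with h | h
  · rw [abs_of_nonneg (sub_nonneg.2 h)]
    exact (growth hf hδ h).trans (le_abs_self _)
  · rw [abs_sub_comm y x, abs_of_nonneg (sub_nonneg.2 h), abs_sub_comm]
    exact (growth hf hδ h).trans (le_abs_self _)

theorem surj_of_growth {f f' : ℝ → ℝ} (hf : ∀ x, HasDerivAt f (f' x) x) {δ : ℝ} (h0 : 0 < δ)
    (hδ : ∀ x, δ ≤ f' x) : Function.Surjective f := by
  have hcont : Continuous f := continuous_iff_continuousAt.2 fun x => (hf x).continuousAt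
  apply hcont.surjective
  · have h1 : Tendsto (fun x : ℝ => f 0 + δ * x) atTop atTop :=
      tendsto_atTop_add_const_left _ _ (tendsto_id.const_mul_atTop h0)
    refine tendsto_atTop_mono' _ ?_ h1
    filter_upwards [eventually_ge_atTop (0:ℝ)] with x hx
    have := growth hf hδ hx
    linarith
  · have h1 : Tendsto (fun x : ℝ => f 0 + δ * x) atBot atBot :=
      tendsto_atBot_add_const_left _ _ (tendsto_id.const_mul_atBot h0)
    refine tendsto_atBot_mono' _ ?_ h1
    filter_upwards [eventually_le_atBot (0:ℝ)] with x hx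
    have := growth hf hδ hx
    linarith

theorem inj_of_growth {f f' : ℝ → ℝ} (hf : ∀ x, HasDerivAt f (f' x) x) {δ : ℝ} (h0 : 0 < δ)
    (hδ : ∀ x, δ ≤ f' x) : Function.Injective f := by
  intro x y hxy
  have := growth_abs hf hδ x y
  rw [hxy, sub_self, abs_zero] at this
  have h2 : |y - x| ≤ 0 := by
    by_contra h
    push Not at h
    have := mul_pos h0 h
    linarith
  have h3 := abs_eq_zero.1 (le_antisymm h2 (abs_nonneg _))
  linarith

/-- the primitive of a periodic continuous function -/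
theorem primitive_shift {f : ℝ → ℝ} (hf : Continuous f) {c : ℝ}
    (hper : ∀ x, f (x + c) = f x) (x : ℝ) :
    ∫ t in (0:ℝ)..(x + c), f t = (∫ t in (0:ℝ)..x, f t) + ∫ t in (0:ℝ)..c, f t := by
  have h1 : ∀ y, HasDerivAt (fun x => (∫ t in (0:ℝ)..(x + c), f t) - ∫ t in (0:ℝ)..x, f t) 0 y := by
    intro y
    have e1 : HasDerivAt (fun x => ∫ t in (0:ℝ)..(x + c), f t) (f (y + c)) y := by
      have := (hf.integral_hasStrictDerivAt 0 (y + c)).hasDerivAt
      exact HasDerivAt.comp_add_const y c this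
    have e2 : HasDerivAt (fun x => ∫ t in (0:ℝ)..x, f t) (f y) y :=
      (hf.integral_hasStrictDerivAt 0 y).hasDerivAt
    have := e1.sub e2
    rw [hper, sub_self] at this
    exact this
  have h2 := is_const_of_deriv_eq_zero (fun y => (h1 y).differentiableAt)
    (fun y => (h1 y).deriv) x 0
  simp only [zero_add, intervalIntegral.integral_same, sub_zero] at h2
  linarith

/-- inverse of a primitive of a function bounded below by a positive constant -/
theorem inverse_primitive {ρ : ℝ → ℝ} (hρ : Continuous ρ) {c : ℝ} (hc : 0 < c)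
    (hlow : ∀ x, c ≤ ρ x) :
    ∃ ϑ : ℝ → ℝ, (∀ t, ∫ u in (0:ℝ)..(ϑ t), ρ u = t) ∧
      (∀ θ, ϑ (∫ u in (0:ℝ)..θ, ρ u) = θ) ∧ ∀ t, HasDerivAt ϑ (ρ (ϑ t))⁻¹ t := by
  have hd : ∀ x, HasDerivAt (fun x => ∫ u in (0:ℝ)..x, ρ u) (ρ x) x := fun x =>
    (hρ.integral_hasStrictDerivAt 0 x).hasDerivAt
  have hsurj := surj_of_growth hd hc hlow
  have hinj := inj_of_growth hd hc hlow
  choose ϑ hϑ using hsurj
  simp only at hϑ
  refine ⟨ϑ, hϑ, fun θ => hinj (hϑ _), fun t => ?_⟩
  have hcont : ContinuousAt ϑ t := by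
    rw [continuousAt_def]
    have : Tendsto ϑ (𝓝 t) (𝓝 (ϑ t)) := by
      rw [tendsto_iff_dist_tendsto_zero]
      have hb : ∀ s, dist (ϑ s) (ϑ t) ≤ |s - t| / c := by
        intro s
        rw [Real.dist_eq, le_div_iff₀ hc, mul_comm]
        have := growth_abs hd hlow (ϑ t) (ϑ s)
        simp only [hϑ] at this
        exact this
      refine squeeze_zero (fun _ => dist_nonneg) hb ?_
      have : Tendsto (fun s : ℝ => |s - t| / c) (𝓝 t) (𝓝 (|t - t| / c)) :=
        (((continuous_id.sub continuous_const).abs).div_const c).tendsto t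
      simpa using this
    exact this
  exact HasDerivAt.of_local_left_inverse hcont (hd (ϑ t)) (hc.trans_le (hlow _)).ne'
    (Eventually.of_forall hϑ)

/-- derivative of an implicitly defined function
`B (X θ) + K * r (X θ) * sin θ = I`. -/
theorem implicit_deriv {B r β r' X : ℝ → ℝ} {K I δ : ℝ} (hδ : 0 < δ)
    (hB : ∀ x, HasDerivAt B (β x) x) (hr : ∀ x, HasDerivAt r (r' x) x)
    (hlow : ∀ x s, -1 ≤ s → s ≤ 1 → δ ≤ β x + K * r' x * s)
    (hXc : Continuous X) (hX : ∀ θ, B (X θ) + K * r (X θ) * Real.sin θ = I) (θ : ℝ) :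
    HasDerivAt X (-(K * r (X θ) * Real.cos θ) / (β (X θ) + K * r' (X θ) * Real.sin θ)) θ := by
  set s := Real.sin θ with hs
  have hs1 : -1 ≤ s := Real.neg_one_le_sin θ
  have hs2 : s ≤ 1 := Real.sin_le_one θ
  have hf : ∀ x, HasDerivAt (fun x => B x + K * r x * s) (β x + K * r' x * s) x := fun x =>
    (hB x).add (((hr x).const_mul K).mul_const s)
  have hl : ∀ x, δ ≤ β x + K * r' x * s := fun x => hlow x s hs1 hs2
  obtain ⟨g, hg⟩ : ∃ g : ℝ → ℝ, ∀ u, (fun x => B x + K * r x * s) (g u) = u :=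
    ⟨_, Function.surjInv_eq (surj_of_growth hf hδ hl)⟩
  have hinj := inj_of_growth hf hδ hl
  have hgI : g I = X θ := by
    apply hinj
    rw [hg]
    exact (hX θ).symm
  have hgc : ContinuousAt g I := by
    have : Tendsto g (𝓝 I) (𝓝 (g I)) := by
      rw [tendsto_iff_dist_tendsto_zero]
      have hb : ∀ v, dist (g v) (g I) ≤ |v - I| / δ := by
        intro v
        rw [Real.dist_eq, le_div_iff₀ hδ, mul_comm]
        have := growth_abs hf hl (g I) (g v)
        have e1 : B (g v) + K * r (g v) * s = v := hg v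
        have e2 : B (g I) + K * r (g I) * s = I := hg I
        simp only [e1, e2] at this
        exact this
      refine squeeze_zero (fun _ => dist_nonneg) hb ?_
      have : Tendsto (fun v : ℝ => |v - I| / δ) (𝓝 I) (𝓝 (|I - I| / δ)) :=
        (((continuous_id.sub continuous_const).abs).div_const δ).tendsto I
      simpa using this
    exact this
  have hgd : HasDerivAt g (β (X θ) + K * r' (X θ) * s)⁻¹ I := by
    have h1 := hf (g I)
    rw [hgI] at h1
    have h2 : HasDerivAt (fun x => B x + K * r x * s) (β (X θ) + K * r' (X θ) * s) (g I) := by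
      rw [hgI]; exact h1
    exact HasDerivAt.of_local_left_inverse hgc h2 (hδ.trans_le (hl _)).ne'
      (Eventually.of_forall hg)
  -- the auxiliary function u
  have hrc : Continuous r := continuous_iff_continuousAt.2 fun x => (hr x).continuousAt
  have hu : HasDerivAt (fun φ => I - K * r (X φ) * (Real.sin φ - s))
      (-(K * r (X θ) * Real.cos θ)) θ := by
    have h1 : HasDerivAt (fun φ => K * r (X φ) * (Real.sin φ - s)) (K * r (X θ) * Real.cos θ) θ := by
      rw [hasDerivAt_iff_tendsto_slope]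
      have h2 := (Real.hasDerivAt_sin θ)
      rw [hasDerivAt_iff_tendsto_slope] at h2
      have h3 : Tendsto (fun φ => K * r (X φ)) (𝓝[≠] θ) (𝓝 (K * r (X θ))) :=
        ((continuous_const.mul (hrc.comp hXc)).tendsto θ).mono_left nhdsWithin_le_nhds
      have h4 := h3.mul h2
      refine h4.congr' ?_
      filter_upwards [self_mem_nhdsWithin] with φ hφ
      simp only [slope_def_field]
      rw [← hs, sub_self, mul_zero, sub_zero]
      ring
    have := h1.const_sub I
    exact this
  have hcomp : HasDerivAt (fun φ => g (I - K * r (X φ) * (Real.sin φ - s)))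
      ((β (X θ) + K * r' (X θ) * s)⁻¹ * (-(K * r (X θ) * Real.cos θ))) θ := by
    have hgd' : HasDerivAt g (β (X θ) + K * r' (X θ) * s)⁻¹
        ((fun φ => I - K * r (X φ) * (Real.sin φ - s)) θ) := by
      simp only [← hs, sub_self, mul_zero, sub_zero]
      exact hgd
    exact hgd'.comp θ hu
  have heq : (fun φ => g (I - K * r (X φ) * (Real.sin φ - s))) = X := by
    funext φ
    apply hinj
    rw [hg]
    have := hX φ
    simp only
    linarith
  rw [heq] at hcomp
  rw [div_eq_inv_mul]
  exact hcomp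

/-- **Key statement.** If the circles `x = const` are never closed magnetic geodesics, and the
magnetic field is positive on average, then there is a contractible closed magnetic geodesic. -/
theorem main_pos {r r' w a β : ℝ → ℝ} (hr : ∀ x, HasDerivAt r (r' x) x) (hr'c : Continuous r')
    (hwc : Continuous w) (hac : Continuous a) (hβc : Continuous β)
    (rpos : ∀ x, 0 < r x) (wpos : ∀ x, 0 < w x)
    (rper : ∀ x, r (x + 1) = r x) (r'per : ∀ x, r' (x + 1) = r' x)
    (wper : ∀ x, w (x + 1) = w x) (βper : ∀ x, β (x + 1) = β x) {K : ℝ}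
    (hpos : ∀ x s, -1 ≤ s → s ≤ 1 → 0 < β x + K * r' x * s) :
    ∃ x θ y : ℝ → ℝ, ∃ T > 0,
      (∀ t, HasDerivAt x (2 * K * r (x t) * Real.cos (θ t) / w (x t)) t ∧
        HasDerivAt y (2 * K * Real.sin (θ t) / r (x t) -
          2 * K * a (x t) * Real.cos (θ t) / (r (x t) * w (x t))) t ∧
        HasDerivAt θ (-(2 / w (x t)) * (β (x t) + K * r' (x t) * Real.sin (θ t))) t) ∧
      ∀ t, x (t + T) = x t ∧ y (t + T) = y t ∧ θ (t + T) = θ t - 2 * Real.pi := by
  have hrc : Continuous r := continuous_iff_continuousAt.2 fun x => (hr x).continuousAt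
  have hsin := Real.continuous_sin
  have hcos := Real.continuous_cos
  -- a uniform lower bound
  obtain ⟨δ, hδ, hlow⟩ : ∃ δ > 0, ∀ x s, -1 ≤ s → s ≤ 1 → δ ≤ β x + K * r' x * s := by
    have h1 : Continuous fun x => min (β x + K * r' x * 1) (β x + K * r' x * (-1)) := by
      fun_prop
    obtain ⟨δ, hδ, hl⟩ := per_lower h1 one_pos
      (fun x => by simp only [r'per, βper])
      (fun x => lt_min (hpos x 1 (by norm_num) le_rfl) (hpos x (-1) le_rfl (by norm_num)))
    refine ⟨δ, hδ, fun x s hs1 hs2 => ?_⟩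
    have e1 := (hl x).trans (min_le_left _ _)
    have e2 := (hl x).trans (min_le_right _ _)
    nlinarith
  -- the potential
  set B : ℝ → ℝ := fun x => ∫ t in (0:ℝ)..x, β t with hBdef
  have hB : ∀ x, HasDerivAt B (β x) x := fun x => (hβc.integral_hasStrictDerivAt 0 x).hasDerivAt
  have hBc : Continuous B := continuous_iff_continuousAt.2 fun x => (hB x).continuousAt
  set Φ : ℝ := B 1 with hΦdef
  have hBshift : ∀ x, B (x + 1) = B x + Φ := fun x => primitive_shift hβc βper x
  have hB0 : B 0 = 0 := by simp [hBdef]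
  have hΦ : 0 < Φ := by
    have h0 := growth hB (δ := δ) (fun x => by simpa using hlow x 0 (by norm_num) (by norm_num))
      (zero_le_one (α := ℝ))
    rw [hB0] at h0
    have : δ * (1 - 0) ≤ Φ - 0 := h0
    linarith
  have hf : ∀ s x, HasDerivAt (fun x => B x + K * r x * s) (β x + K * r' x * s) x := fun s x =>
    (hB x).add (((hr x).const_mul K).mul_const s)
  have hl : ∀ θ x, δ ≤ β x + K * r' x * Real.sin θ := fun θ x =>
    hlow x _ (Real.neg_one_le_sin θ) (Real.sin_le_one θ)
  have hsurj : ∀ I θ, ∃ x, B x + K * r x * Real.sin θ = I := fun I θ =>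
    surj_of_growth (hf (Real.sin θ)) hδ (hl θ) I
  choose X hX using hsurj
  have hinj : ∀ θ x x', B x + K * r x * Real.sin θ = B x' + K * r x' * Real.sin θ → x = x' :=
    fun θ x x' h => inj_of_growth (hf (Real.sin θ)) hδ (hl θ) h
  have hXshift : ∀ I θ, X (I + Φ) θ = X I θ + 1 := by
    intro I θ
    apply hinj θ
    have h1 := hX (I + Φ) θ
    have h2 := hX I θ
    have h3 := hBshift (X I θ)
    have h4 := rper (X I θ)
    rw [h1, h3, h4]
    linarith
  have hXper : ∀ I θ, X I (θ + 2 * Real.pi) = X I θ := by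
    intro I θ
    apply hinj θ
    rw [hX I θ]
    have := hX I (θ + 2 * Real.pi)
    rwa [Real.sin_add_two_pi] at this
  -- continuity
  have hXc : Continuous fun z : ℝ × ℝ => X z.1 z.2 := by
    rw [continuous_iff_continuousAt]
    rintro ⟨I₀, θ₀⟩
    have : Tendsto (fun z : ℝ × ℝ => X z.1 z.2) (𝓝 (I₀, θ₀)) (𝓝 (X I₀ θ₀)) := by
      rw [tendsto_iff_dist_tendsto_zero]
      have hb : ∀ z : ℝ × ℝ, dist (X z.1 z.2) (X I₀ θ₀) ≤
          |z.1 - I₀ - K * r (X I₀ θ₀) * (Real.sin z.2 - Real.sin θ₀)| / δ := by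
        rintro ⟨I, θ⟩
        rw [Real.dist_eq, le_div_iff₀ hδ, mul_comm]
        have h1 := growth_abs (hf (Real.sin θ)) (hl θ) (X I₀ θ₀) (X I θ)
        simp only [hX] at h1
        refine h1.trans (le_of_eq ?_)
        congr 1
        have := hX I₀ θ₀
        simp only
        linear_combination (-1) * this
      refine squeeze_zero (fun _ => dist_nonneg) hb ?_
      have hc : Continuous fun z : ℝ × ℝ =>
          |z.1 - I₀ - K * r (X I₀ θ₀) * (Real.sin z.2 - Real.sin θ₀)| / δ := by fun_prop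
      have := hc.tendsto (I₀, θ₀)
      simpa using this
    exact this
  have hXc1 : ∀ θ, Continuous fun I => X I θ := fun θ =>
    hXc.comp (continuous_id.prodMk continuous_const)
  have hXc2 : ∀ I, Continuous fun θ => X I θ := fun I =>
    hXc.comp (continuous_const.prodMk continuous_id)
  -- derivative in I
  have hXI : ∀ I θ, HasDerivAt (fun I => X I θ)
      (β (X I θ) + K * r' (X I θ) * Real.sin θ)⁻¹ I := by
    intro I θ
    exact HasDerivAt.of_local_left_inverse (hXc1 θ).continuousAt (hf (Real.sin θ) (X I θ))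
      (hδ.trans_le (hl _ _)).ne' (Eventually.of_forall fun u => hX u θ)
  -- the function m = w / r and its primitive
  set m : ℝ → ℝ := fun x => w x / r x with hmdef
  have hmc : Continuous m := hwc.div hrc fun x => (rpos x).ne'
  have hmper : ∀ x, m (x + 1) = m x := fun x => by simp only [hmdef, rper, wper]
  obtain ⟨Cm, hCm⟩ := per_upper hmc one_pos hmper
  set M : ℝ → ℝ := fun x => ∫ t in (0:ℝ)..x, m t with hMdef
  have hM : ∀ x, HasDerivAt M (m x) x := fun x => (hmc.integral_hasStrictDerivAt 0 x).hasDerivAt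
  have hMc : Continuous M := continuous_iff_continuousAt.2 fun x => (hM x).continuousAt
  have hMshift : ∀ x, M (x + 1) = M x + M 1 := fun x => primitive_shift hmc hmper x
  set g : ℝ → ℝ := fun I => ∫ θ in (0:ℝ)..(2 * Real.pi), Real.sin θ * M (X I θ) with hgdef
  have hnum : ∀ I, Continuous fun θ => Real.sin θ *
      (m (X I θ) * (β (X I θ) + K * r' (X I θ) * Real.sin θ)⁻¹) := by
    intro I
    have hX2 := hXc2 I
    refine hsin.mul ((hmc.comp hX2).mul (Continuous.inv₀ ?_ fun θ =>
      (hδ.trans_le (hl θ (X I θ))).ne'))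
    exact (hβc.comp hX2).add ((continuous_const.mul (hr'c.comp hX2)).mul hsin)
  have hgd : ∀ I, HasDerivAt g (∫ θ in (0:ℝ)..(2 * Real.pi), Real.sin θ *
      (m (X I θ) * (β (X I θ) + K * r' (X I θ) * Real.sin θ)⁻¹)) I := by
    intro I
    have key := intervalIntegral.hasDerivAt_integral_of_dominated_loc_of_deriv_le
      (μ := volume) (a := (0:ℝ)) (b := 2 * Real.pi)
      (F := fun I θ => Real.sin θ * M (X I θ))
      (F' := fun I θ => Real.sin θ *
        (m (X I θ) * (β (X I θ) + K * r' (X I θ) * Real.sin θ)⁻¹))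
      (x₀ := I) (s := univ) (bound := fun _ => Cm * δ⁻¹) univ_mem ?_ ?_ ?_ ?_ ?_ ?_
    · exact key.2
    · refine Eventually.of_forall fun J => ?_
      exact (hsin.mul (hMc.comp (hXc2 J))).aestronglyMeasurable
    · exact (hsin.mul (hMc.comp (hXc2 I))).intervalIntegrable _ _
    · exact (hnum I).aestronglyMeasurable
    · refine Eventually.of_forall fun θ _ J _ => ?_
      have h1 : |Real.sin θ| ≤ 1 := Real.abs_sin_le_one θ
      have h2 : |m (X J θ)| ≤ Cm := hCm _
      have h3 : |(β (X J θ) + K * r' (X J θ) * Real.sin θ)⁻¹| ≤ δ⁻¹ := by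
        rw [abs_inv]
        apply inv_anti₀ hδ
        exact (hl θ (X J θ)).trans (le_abs_self _)
      rw [Real.norm_eq_abs, abs_mul, abs_mul]
      have h4 : 0 ≤ Cm := (abs_nonneg _).trans h2
      calc |Real.sin θ| * (|m (X J θ)| * |(β (X J θ) + K * r' (X J θ) * Real.sin θ)⁻¹|)
          ≤ 1 * (Cm * δ⁻¹) := by gcongr
        _ = Cm * δ⁻¹ := one_mul _
    · exact intervalIntegrable_const
    · refine Eventually.of_forall fun θ _ J _ => ?_
      exact ((hM (X J θ)).comp J (hXI J θ)).const_mul (Real.sin θ)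
  have hg0 : g 0 = g Φ := by
    simp only [hgdef]
    have e1 : ∀ θ, Real.sin θ * M (X Φ θ) = Real.sin θ * M (X 0 θ) + Real.sin θ * M 1 := by
      intro θ
      have := hXshift 0 θ
      rw [zero_add] at this
      rw [this, hMshift]
      ring
    simp only [e1]
    rw [intervalIntegral.integral_add, intervalIntegral.integral_mul_const, integral_sin]
    · simp
    · exact (hsin.mul (hMc.comp (hXc2 0))).intervalIntegrable _ _
    · exact (hsin.mul continuous_const).intervalIntegrable _ _
  obtain ⟨I, -, hI⟩ := exists_hasDerivAt_eq_zero hΦ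
    (fun x _ => ((hgd x).continuousAt).continuousWithinAt) hg0 (fun x _ => hgd x)
  -- from now on `I` is fixed
  clear hgd hg0
  set Z : ℝ → ℝ := fun θ => X I θ with hZdef
  have hZc : Continuous Z := hXc2 I
  have hZper : ∀ θ, Z (θ + 2 * Real.pi) = Z θ := hXper I
  set fx : ℝ → ℝ := fun θ => β (Z θ) + K * r' (Z θ) * Real.sin θ with hfxdef
  have hfxc : Continuous fx := by
    exact (hβc.comp hZc).add ((continuous_const.mul (hr'c.comp hZc)).mul hsin)
  have hfxpos : ∀ θ, 0 < fx θ := fun θ => hδ.trans_le (hl _ _)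
  have hfxper : ∀ θ, fx (θ + 2 * Real.pi) = fx θ := fun θ => by
    simp only [hfxdef, hZper, Real.sin_add_two_pi]
  have hZd : ∀ θ, HasDerivAt Z (-(K * r (Z θ) * Real.cos θ) / fx θ) θ :=
    implicit_deriv hδ hB hr hlow hZc (fun θ => hX I θ)
  -- the time as a function of the angle
  set ρ : ℝ → ℝ := fun θ => w (Z θ) / (2 * fx θ) with hρdef
  have hρc : Continuous ρ := (hwc.comp hZc).div (continuous_const.mul hfxc)
    fun θ => (mul_pos two_pos (hfxpos θ)).ne'
  have hρpos : ∀ θ, 0 < ρ θ := fun θ => div_pos (wpos _) (mul_pos two_pos (hfxpos θ))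
  have hρper : ∀ θ, ρ (θ + 2 * Real.pi) = ρ θ := fun θ => by
    simp only [hρdef, hZper, hfxper]
  obtain ⟨c, hc, hρlow⟩ := per_lower hρc Real.two_pi_pos hρper hρpos
  obtain ⟨ϑ, hϑ1, hϑ2, hϑ3⟩ := inverse_primitive hρc hc hρlow
  set T : ℝ := ∫ u in (0:ℝ)..(2 * Real.pi), ρ u with hTdef
  have hT : 0 < T := by
    have h1 := growth (f := fun x => ∫ u in (0:ℝ)..x, ρ u)
      (fun x => (hρc.integral_hasStrictDerivAt 0 x).hasDerivAt) hρlow Real.two_pi_pos.le
    simp only [intervalIntegral.integral_same, sub_zero] at h1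
    exact (mul_pos hc Real.two_pi_pos).trans_le h1
  have hϑshift : ∀ t, ϑ (t - T) = ϑ t - 2 * Real.pi := by
    intro t
    have h1 := primitive_shift hρc hρper (ϑ t - 2 * Real.pi)
    rw [sub_add_cancel, hϑ1] at h1
    have h2 : t - T = ∫ u in (0:ℝ)..(ϑ t - 2 * Real.pi), ρ u := by
      rw [hTdef]; linarith
    rw [h2, hϑ2]
  -- the second coordinate
  set η : ℝ → ℝ := fun θ => -(2 * K * Real.sin θ / r (Z θ) -
    2 * K * a (Z θ) * Real.cos θ / (r (Z θ) * w (Z θ))) * ρ θ with hηdef
  have hηc : Continuous η := by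
    have h1 : Continuous fun θ => r (Z θ) := hrc.comp hZc
    have h2 : Continuous fun θ => w (Z θ) := hwc.comp hZc
    have h3 : Continuous fun θ => a (Z θ) := hac.comp hZc
    refine Continuous.mul (Continuous.neg (Continuous.sub ?_ ?_)) hρc
    · exact (continuous_const.mul hsin).div h1 fun θ => (rpos _).ne'
    · exact ((continuous_const.mul h3).mul hcos).div (h1.mul h2)
        fun θ => (mul_pos (rpos _) (wpos _)).ne'
  set Y : ℝ → ℝ := fun θ => ∫ u in (0:ℝ)..θ, η u with hYdef
  have hY : ∀ θ, HasDerivAt Y (η θ) θ := fun θ =>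
    (hηc.integral_hasStrictDerivAt 0 θ).hasDerivAt
  -- the total displacement vanishes
  have hψc : Continuous fun x => a x / r x ^ 2 :=
    hac.div (hrc.pow 2) fun x => (pow_pos (rpos x) 2).ne'
  have hηint : ∫ u in (0:ℝ)..(2 * Real.pi), η u = 0 := by
    have e1 : ∀ θ, η θ = -K * (Real.sin θ *
        (m (X I θ) * (β (X I θ) + K * r' (X I θ) * Real.sin θ)⁻¹)) -
        (a (Z θ) / r (Z θ) ^ 2) * (-(K * r (Z θ) * Real.cos θ) / fx θ) := by
      intro θ
      have h1 := (rpos (Z θ)).ne'
      have h2 := (wpos (Z θ)).ne'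
      have h3 := (hfxpos θ).ne'
      have h4 : β (X I θ) + K * r' (X I θ) * Real.sin θ = fx θ := rfl
      rw [h4]
      simp only [hηdef, hρdef, hmdef]
      change _ = -K * (Real.sin θ * (w (Z θ) / r (Z θ) * (fx θ)⁻¹)) - _
      field_simp
      ring
    simp only [e1]
    rw [intervalIntegral.integral_sub, intervalIntegral.integral_const_mul, hI, mul_zero, zero_sub,
      neg_eq_zero]
    · set Ψ : ℝ → ℝ := fun x => ∫ t in (0:ℝ)..x, a t / r t ^ 2 with hΨdef
      have hΨ : ∀ x, HasDerivAt Ψ (a x / r x ^ 2) x := fun x =>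
        (hψc.integral_hasStrictDerivAt 0 x).hasDerivAt
      have h5 : ∀ θ, HasDerivAt (fun θ => Ψ (Z θ))
          ((a (Z θ) / r (Z θ) ^ 2) * (-(K * r (Z θ) * Real.cos θ) / fx θ)) θ := fun θ =>
        (hΨ (Z θ)).comp θ (hZd θ)
      have h6 := intervalIntegral.integral_eq_sub_of_hasDerivAt
        (a := (0:ℝ)) (b := 2 * Real.pi) (fun θ _ => h5 θ) ?_
      · rw [h6]
        have := hZper 0
        rw [zero_add] at this
        rw [this, sub_self]
      · apply Continuous.intervalIntegrable
        refine (hψc.comp hZc).mul ?_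
        exact (((continuous_const.mul (hrc.comp hZc)).mul hcos).neg).div hfxc
          fun θ => (hfxpos θ).ne'
    · exact (continuous_const.mul (hnum I)).intervalIntegrable _ _
    · apply Continuous.intervalIntegrable
      refine (hψc.comp hZc).mul ?_
      exact (((continuous_const.mul (hrc.comp hZc)).mul hcos).neg).div hfxc
        fun θ => (hfxpos θ).ne'
  have hηper : ∀ θ, η (θ + 2 * Real.pi) = η θ := fun θ => by
    simp only [hηdef, hZper, hρper, Real.sin_add_two_pi, Real.cos_add_two_pi]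
  have hYshift : ∀ θ, Y (θ + 2 * Real.pi) = Y θ := by
    intro θ
    have := primitive_shift hηc hηper θ
    rw [hηint, add_zero] at this
    exact this
  refine ⟨fun t => Z (ϑ (-t)), fun t => ϑ (-t), fun t => Y (ϑ (-t)), T, hT, fun t => ?_,
    fun t => ?_⟩
  · have h1 : HasDerivAt (fun t => ϑ (-t)) (-(ρ (ϑ (-t)))⁻¹) t := by
      have := (hϑ3 (-t)).comp t (hasDerivAt_neg t)
      refine this.congr_deriv ?_
      ring
    have h2 := (rpos (Z (ϑ (-t)))).ne'
    have h3 := (wpos (Z (ϑ (-t)))).ne'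
    have h4 := (hfxpos (ϑ (-t))).ne'
    refine ⟨?_, ?_, ?_⟩
    · have := (hZd (ϑ (-t))).comp t h1
      refine this.congr_deriv ?_
      simp only [hρdef]
      field_simp
    · have := (hY (ϑ (-t))).comp t h1
      refine this.congr_deriv ?_
      have h5 := (hρpos (ϑ (-t))).ne'
      simp only [hηdef]
      field_simp
    · refine h1.congr_deriv ?_
      simp only [hρdef]
      change _ = -(2 / w (Z (ϑ (-t)))) * fx (ϑ (-t))
      field_simp
  · have h1 : ϑ (-(t + T)) = ϑ (-t) - 2 * Real.pi := by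
      rw [← hϑshift]
      congr 1
      ring
    have h2 : Z (ϑ (-t) - 2 * Real.pi) = Z (ϑ (-t)) := by
      have := hZper (ϑ (-t) - 2 * Real.pi)
      rw [sub_add_cancel] at this
      exact this.symm
    have h3 : Y (ϑ (-t) - 2 * Real.pi) = Y (ϑ (-t)) := by
      have := hYshift (ϑ (-t) - 2 * Real.pi)
      rw [sub_add_cancel] at this
      exact this.symm
    simp only [h1, h2, h3, and_self]

end Core
end MP4c42bd
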