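import Mathlib

/-!
# Magnetic flows on the two-torus

`TorusSystem` is a smooth Riemannian metric `E dx² + 2 F dx dy + G dy²` together with a
smooth (automatically closed) 2-form `b dx ∧ dy` on the torus `ℝ²/ℤ²`, written with doubly
periodic functions.
-/

namespace MP4c42bd

open scoped ContDiff

/-- A smooth Riemannian metric `E dx² + 2 F dx dy + G dy²` and a smooth 2-form `b dx ∧ dy`
on the torus `ℝ²/ℤ²`. -/
structure TorusSystem where
  /-- metric coefficient `g₁₁` -/
  E : ℝ → ℝ → ℝ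
  /-- metric coefficient `g₁₂` -/
  F : ℝ → ℝ → ℝ
  /-- metric coefficient `g₂₂` -/
  G : ℝ → ℝ → ℝ
  /-- density of the magnetic form `ω = b dx ∧ dy` -/
  b : ℝ → ℝ → ℝ
  smoothE : ContDiff ℝ ∞ (fun z : ℝ × ℝ => E z.1 z.2)
  smoothF : ContDiff ℝ ∞ (fun z : ℝ × ℝ => F z.1 z.2)
  smoothG : ContDiff ℝ ∞ (fun z : ℝ × ℝ => G z.1 z.2)
  smoothb : ContDiff ℝ ∞ (fun z : ℝ × ℝ => b z.1 z.2)
  perx : ∀ x y, E (x + 1) y = E x y ∧ F (x + 1) y = F x y ∧ G (x + 1) y = G x y ∧
    b (x + 1) y = b x y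
  pery : ∀ x y, E x (y + 1) = E x y ∧ F x (y + 1) = F x y ∧ G x (y + 1) = G x y ∧
    b x (y + 1) = b x y
  posE : ∀ x y, 0 < E x y
  posdet : ∀ x y, 0 < E x y * G x y - F x y ^ 2

/-- The kinetic Hamiltonian `∑ g^{ij} p_i p_j` (inverse metric) at the point `(x, y)` and the
covector `(p, q)`. -/
noncomputable def TorusSystem.H (S : TorusSystem) (x y p q : ℝ) : ℝ :=
  (S.G x y * p ^ 2 - 2 * S.F x y * p * q + S.E x y * q ^ 2) /
    (S.E x y * S.G x y - S.F x y ^ 2)

/-- `(x, y, p, q)` is a complete trajectory (lifted to the universal cover `ℝ²` of the torus)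
of the Hamiltonian flow of `H` for the twisted symplectic form
`dp ∧ dx + dq ∧ dy + b dx ∧ dy`. -/
def TorusSystem.IsTrajectory (S : TorusSystem) (x y p q : ℝ → ℝ) : Prop :=
  ∀ t : ℝ,
    HasDerivAt x (deriv (fun u => S.H (x t) (y t) u (q t)) (p t)) t ∧
    HasDerivAt y (deriv (fun u => S.H (x t) (y t) (p t) u) (q t)) t ∧
    HasDerivAt p (-deriv (fun u => S.H u (y t) (p t) (q t)) (x t) +
      S.b (x t) (y t) * deriv (fun u => S.H (x t) (y t) (p t) u) (q t)) t ∧
    HasDerivAt q (-deriv (fun u => S.H (x t) u (p t) (q t)) (y t) -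
      S.b (x t) (y t) * deriv (fun u => S.H (x t) (y t) u (q t)) (p t)) t

/-- The energy level `H = k` carries a closed magnetic geodesic: a trajectory on the level
whose image in the cotangent bundle of the torus `ℝ²/ℤ²` is periodic. -/
def TorusSystem.HasClosedOrbit (S : TorusSystem) (k : ℝ) : Prop :=
  ∃ x y p q : ℝ → ℝ, S.IsTrajectory x y p q ∧ (∀ t, S.H (x t) (y t) (p t) (q t) = k) ∧
    ∃ T > 0, ∃ m n : ℤ, ∀ t,
      x (t + T) = x t + m ∧ y (t + T) = y t + n ∧ p (t + T) = p t ∧ q (t + T) = q t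

/-- As `HasClosedOrbit`, but with a closed orbit which projects to a contractible closed curve
of the torus (a closed curve of the universal cover `ℝ²`). -/
def TorusSystem.HasContractibleOrbit (S : TorusSystem) (k : ℝ) : Prop :=
  ∃ x y p q : ℝ → ℝ, S.IsTrajectory x y p q ∧ (∀ t, S.H (x t) (y t) (p t) (q t) = k) ∧
    ∃ T > 0, ∀ t, x (t + T) = x t ∧ y (t + T) = y t ∧ p (t + T) = p t ∧ q (t + T) = q t

/-- One of the circles `x = const`, run through at constant speed in one of the two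
directions, is a closed magnetic geodesic on the level `H = k`. -/
def TorusSystem.HasCircleOrbit (S : TorusSystem) (k : ℝ) : Prop :=
  ∃ x₀ v p₀ q₀ : ℝ, v ≠ 0 ∧
    S.IsTrajectory (fun _ => x₀) (fun t => v * t) (fun _ => p₀) (fun _ => q₀) ∧
    ∀ t, S.H x₀ (v * t) p₀ q₀ = k

/-- The metric and the magnetic form are invariant under the circle action
`(x, y) ↦ (x, y + c)`. -/
def TorusSystem.CircleInvariant (S : TorusSystem) : Prop :=
  ∀ x y c, S.E x (y + c) = S.E x y ∧ S.F x (y + c) = S.F x y ∧ S.G x (y + c) = S.G x y ∧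
    S.b x (y + c) = S.b x y

end MP4c42bd
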